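import Pool.Agent.H3.Tri.Core

set_option autoImplicit false

open MeasureTheory Set Complex Metric Filter Topology
open scoped Real ENNReal NNReal ComplexConjugate

namespace Pool.Agent.H24.Tri.Aux3

theorem rigAlg (ρ A₁ B₁ A₂ B₂ u : ℂ) (t : ℝ) (hi : ρ.im ≠ 0) (hu : u * conj u = 1)
    (R1 : (A₁ - B₁ * conj u ^ 2).re = t)
    (R2 : (A₁ * (ρ / conj ρ) - B₁ * conj u ^ 2).re = t)
    (R3 : (A₂ - B₂ * conj u ^ 2).re = t)
    (R3i : (A₂ - B₂ * conj u ^ 2).im = 2 * (B₁ * conj u ^ 2).im)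
    (R4 : (A₂ * ((ρ - 1) / (conj ρ - 1)) - B₂ * conj u ^ 2).re = t)
    (R5 : ((A₂ - A₁ + (B₂ - B₁)) * conj u).im = 0)
    (R5' : (((A₂ - A₁) * I - (B₂ - B₁) * I) * conj u).im = 0) :
    (A₂ / (conj ρ - 1)).re = (A₁ / conj ρ).re / 2 -
      3 / (2 * ρ.im) * (B₁ * conj u ^ 2).im ∧
    B₂ = B₁ + u ^ 2 * ((A₂ / (conj ρ - 1)).re * (ρ - 1) - (A₁ / conj ρ).re * ρ) ∧
    t = (A₁ / conj ρ).re * ρ.re - (B₁ * conj u ^ 2).re := by
  have hc : conj ρ ≠ 0 := by
    intro h
    apply hi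
    have := congrArg Complex.im h
    simpa using this
  have hc1 : conj ρ - 1 ≠ 0 := by
    intro h
    apply hi
    have := congrArg Complex.im h
    simpa using this
  obtain ⟨X, hX⟩ : ∃ X, X = A₁ / conj ρ := ⟨_, rfl⟩
  obtain ⟨Y, hY⟩ : ∃ Y, Y = A₂ / (conj ρ - 1) := ⟨_, rfl⟩
  have hA1 : A₁ = X * conj ρ := by rw [hX]; field_simp
  have hA1' : A₁ * (ρ / conj ρ) = X * ρ := by rw [hX]; field_simp
  have hA2 : A₂ = Y * (conj ρ - 1) := by rw [hY]; field_simp
  have hA2' : A₂ * ((ρ - 1) / (conj ρ - 1)) = Y * (ρ - 1) := by rw [hY]; field_simp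
  have hXim : X.im = 0 := by
    rw [hA1] at R1
    rw [hA1'] at R2
    have h1 : 2 * (X.im * ρ.im) = 0 := by
      simp only [Complex.sub_re, Complex.mul_re, Complex.conj_re, Complex.conj_im] at R1 R2
      linarith
    have := mul_eq_zero.1 (mul_eq_zero.1 h1 |>.resolve_left two_ne_zero)
    exact this.resolve_right hi
  have hYim : Y.im = 0 := by
    rw [hA2] at R3
    rw [hA2'] at R4
    have h1 : 2 * (Y.im * ρ.im) = 0 := by
      simp only [Complex.sub_re, Complex.sub_im, Complex.mul_re, Complex.conj_re, Complex.conj_im,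
        Complex.one_re, Complex.one_im] at R3 R4
      linarith
    have := mul_eq_zero.1 (mul_eq_zero.1 h1 |>.resolve_left two_ne_zero)
    exact this.resolve_right hi
  have hXr : X = (X.re : ℂ) := by
    apply Complex.ext <;> simp [hXim]
  have hYr : Y = (Y.re : ℂ) := by
    apply Complex.ext <;> simp [hYim]
  have hu2 : u ^ 2 * conj u ^ 2 = 1 := by
    rw [← mul_pow, hu, one_pow]
  have hβ : (B₂ - B₁) * conj u = conj ((A₂ - A₁) * conj u) := by
    have e1 : ((B₂ - B₁) * conj u).im = -((A₂ - A₁) * conj u).im := by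
      rw [add_mul, Complex.add_im] at R5
      linarith
    have e2 : ((B₂ - B₁) * conj u).re = ((A₂ - A₁) * conj u).re := by
      have : ((A₂ - A₁) * I - (B₂ - B₁) * I) * conj u =
          ((A₂ - A₁) * conj u - (B₂ - B₁) * conj u) * I := by ring
      rw [this, Complex.mul_I_im, Complex.sub_re] at R5'
      linarith
    apply Complex.ext
    · rw [e2, Complex.conj_re]
    · rw [e1, Complex.conj_im]
  have hB : B₂ - B₁ = u ^ 2 * conj (A₂ - A₁) := by
    have h1 : (B₂ - B₁) * (u * conj u) = u * ((B₂ - B₁) * conj u) := by ring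
    rw [hu, mul_one, hβ, map_mul, Complex.conj_conj] at h1
    rw [h1]
    ring
  have hconj : conj (A₂ - A₁) = Y.re * (ρ - 1) - X.re * ρ := by
    rw [hA2, hA1, hXr, hYr]
    simp
  rw [hconj] at hB
  have hB2 : B₂ * conj u ^ 2 = B₁ * conj u ^ 2 + (Y.re * (ρ - 1) - X.re * ρ) := by
    linear_combination conj u ^ 2 * hB + (Y.re * (ρ - 1) - X.re * ρ) * hu2
  rw [← hX, ← hY]
  refine ⟨?_, ?_, ?_⟩
  · rw [hB2, hA2, hYr] at R3i
    simp only [Complex.sub_im, Complex.add_im, Complex.mul_im, Complex.ofReal_re,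
      Complex.ofReal_im, Complex.sub_re, Complex.conj_re, Complex.conj_im, Complex.one_re,
      Complex.one_im, zero_mul, add_zero, sub_zero] at R3i ⊢
    field_simp
    linarith
  · linear_combination hB
  · rw [hA1, hXr] at R1
    simp only [Complex.sub_re, Complex.mul_re, Complex.ofReal_re,
      Complex.ofReal_im, Complex.conj_re, Complex.conj_im, zero_mul, sub_zero] at R1 ⊢
    linarith

end Pool.Agent.H24.Tri.Aux3
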