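import Pool.Agent.H3.Tri.Flow

set_option autoImplicit false

open MeasureTheory Set Complex Metric Filter Topology
open scoped Real ENNReal NNReal ComplexConjugate

namespace Pool.Agent.H24.Tri.Aux3

theorem rigLim (g : ℝ → ℂ) (g' κ : ℂ) (hκ : κ ≠ 0) (τ : ℝ → ℝ) (t : ℝ) (S : Set ℝ)
    (hS : ∃ᶠ r in 𝓝[≠] (0 : ℝ), r ∈ S) (hg : HasDerivAt g g' 0)
    (h : ∀ r ∈ S, g r - g 0 = κ * (τ r * cis r - t)) :
    (g' / κ).im = t ∧ ∀ (σ : ℝ → ℝ) (σ' : ℝ), HasDerivAt σ σ' 0 → σ 0 = t →
      (∀ r ∈ S, τ r = σ r) → (g' / κ).re = σ' := by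
  set l : Filter ℝ := 𝓝[≠] (0 : ℝ) ⊓ 𝓟 S with hl
  have hne : l.NeBot := Filter.frequently_iff_neBot.1 hS
  have hl1 : l ≤ 𝓝[≠] (0 : ℝ) := inf_le_left
  have hl2 : l ≤ 𝓝 (0 : ℝ) := hl1.trans nhdsWithin_le_nhds
  have hlS : ∀ᶠ r in l, r ∈ S := Filter.mem_inf_of_right (Filter.mem_principal_self S)
  have hslope : Tendsto (fun r : ℝ => (r⁻¹ : ℝ) • (g r - g 0)) l (𝓝 g') := by
    have := (hasDerivAt_iff_tendsto_slope.1 hg).mono_left hl1
    refine this.congr fun r => ?_
    simp [slope]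
  have hmain : Tendsto (fun r : ℝ => ((r⁻¹ : ℝ) : ℂ) * (τ r * cis r - t)) l (𝓝 (g' / κ)) := by
    refine (hslope.div_const κ).congr' ?_
    filter_upwards [hlS] with r hr
    rw [h r hr, Complex.real_smul]
    field_simp
  have him : Tendsto (fun r : ℝ => τ r * (r⁻¹ * Real.sin r)) l (𝓝 (g' / κ).im) := by
    refine ((Complex.continuous_im.tendsto _).comp hmain).congr fun r => ?_
    simp only [Function.comp, cis, Complex.re_ofReal_mul, Complex.im_ofReal_mul, Complex.sub_im,
      Complex.exp_ofReal_mul_I_im, Complex.ofReal_im]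
    ring
  have hre : Tendsto (fun r : ℝ => r⁻¹ * (τ r * Real.cos r - t)) l (𝓝 (g' / κ).re) := by
    refine ((Complex.continuous_re.tendsto _).comp hmain).congr fun r => ?_
    simp only [Function.comp, cis, Complex.re_ofReal_mul, Complex.sub_re,
      Complex.exp_ofReal_mul_I_re, Complex.ofReal_re]
  have hr0 : Tendsto (fun r : ℝ => r) l (𝓝 0) := hl2
  have hcos : Tendsto (fun r : ℝ => Real.cos r) l (𝓝 1) := by
    have := (Real.continuous_cos.tendsto 0).mono_left hl2
    simpa using this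
  have hrne : ∀ᶠ r in l, r ≠ 0 := hl1 self_mem_nhdsWithin
  have hτc : Tendsto (fun r : ℝ => τ r * Real.cos r) l (𝓝 t) := by
    have h1 : Tendsto (fun r : ℝ => r * (r⁻¹ * (τ r * Real.cos r - t)) + t) l
        (𝓝 (0 * (g' / κ).re + t)) := (hr0.mul hre).add_const t
    simp only [zero_mul, zero_add] at h1
    refine h1.congr' ?_
    filter_upwards [hrne] with r hr
    field_simp
    ring
  have hτ : Tendsto τ l (𝓝 t) := by
    have h1 := hτc.div hcos one_ne_zero
    rw [div_one] at h1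
    refine h1.congr' ?_
    have hcne : ∀ᶠ r in l, Real.cos r ≠ 0 := hcos.eventually_ne one_ne_zero
    filter_upwards [hcne] with r hr
    simp only [Pi.div_apply]
    field_simp
  have hsin : Tendsto (fun r : ℝ => r⁻¹ * Real.sin r) l (𝓝 1) := by
    have := ((hasDerivAt_iff_tendsto_slope.1 (Real.hasDerivAt_sin 0)).mono_left hl1)
    rw [Real.cos_zero] at this
    refine this.congr fun r => ?_
    simp [slope]
  constructor
  · have h1 := hτ.mul hsin
    rw [mul_one] at h1
    exact tendsto_nhds_unique him h1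
  · intro σ σ' hσ hσ0 hτσ
    have h1 : HasDerivAt (fun r => σ r * Real.cos r) (σ' * Real.cos 0 + σ 0 * (-Real.sin 0)) 0 :=
      hσ.mul (Real.hasDerivAt_cos 0)
    have h2 := (hasDerivAt_iff_tendsto_slope.1 h1).mono_left hl1
    simp only [Real.cos_zero, Real.sin_zero, mul_one, neg_zero, mul_zero, add_zero] at h2
    have h3 : Tendsto (fun r : ℝ => r⁻¹ * (τ r * Real.cos r - t)) l (𝓝 σ') := by
      refine h2.congr' ?_
      filter_upwards [hlS] with r hr
      simp only [slope, vsub_eq_sub, sub_zero, smul_eq_mul, Real.cos_zero, mul_one]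
      rw [hτσ r hr, hσ0]
    exact tendsto_nhds_unique hre h3

/-- Variant for the fixed angle. -/
theorem rigLim' (g : ℝ → ℂ) (g' κ : ℂ) (hκ : κ ≠ 0) (τ : ℝ → ℝ) (t : ℝ) (S : Set ℝ)
    (hS : ∃ᶠ r in 𝓝[≠] (0 : ℝ), r ∈ S) (hg : HasDerivAt g g' 0)
    (h : ∀ r ∈ S, g r - g 0 = κ * (τ r - t)) : (g' / κ).im = 0 := by
  set l : Filter ℝ := 𝓝[≠] (0 : ℝ) ⊓ 𝓟 S with hl
  have hne : l.NeBot := Filter.frequently_iff_neBot.1 hS
  have hl1 : l ≤ 𝓝[≠] (0 : ℝ) := inf_le_left
  have hlS : ∀ᶠ r in l, r ∈ S := Filter.mem_inf_of_right (Filter.mem_principal_self S)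
  have hslope : Tendsto (fun r : ℝ => (r⁻¹ : ℝ) • (g r - g 0)) l (𝓝 g') := by
    have := (hasDerivAt_iff_tendsto_slope.1 hg).mono_left hl1
    refine this.congr fun r => ?_
    simp [slope]
  have hmain : Tendsto (fun r : ℝ => (((r⁻¹ * (τ r - t) : ℝ)) : ℂ)) l (𝓝 (g' / κ)) := by
    refine (hslope.div_const κ).congr' ?_
    filter_upwards [hlS] with r hr
    rw [h r hr, Complex.real_smul]
    push_cast
    field_simp
  have him := ((Complex.continuous_im.tendsto _).comp hmain)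
  have h0 : (Complex.im ∘ fun r : ℝ => (((r⁻¹ * (τ r - t) : ℝ)) : ℂ)) = fun _ => 0 := by
    funext r
    simp only [Function.comp, Complex.ofReal_im]
  rw [h0] at him
  exact (tendsto_nhds_unique him tendsto_const_nhds)

/-- complex linear part of a real linear map -/
noncomputable def rigA (L : ℂ →L[ℝ] ℂ) : ℂ := (L 1 - I * L I) / 2

/-- antilinear part of a real linear map -/
noncomputable def rigB (L : ℂ →L[ℝ] ℂ) : ℂ := (L 1 + I * L I) / 2

theorem rigAB (L : ℂ →L[ℝ] ℂ) (h : ℂ) : L h = rigA L * h + rigB L * conj h := by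
  have h1 : L h = h.re * L 1 + h.im * L I := by
    have : h = (h.re : ℝ) • (1 : ℂ) + (h.im : ℝ) • I := by
      apply Complex.ext <;> simp
    conv_lhs => rw [this]
    rw [map_add, map_smul, map_smul, Complex.real_smul, Complex.real_smul]
  rw [h1]
  unfold rigA rigB
  have h2 : conj h = h.re - h.im * I := by
    apply Complex.ext <;> simp
  have h3 : h = h.re + h.im * I := (Complex.re_add_im h).symm
  rw [h2]
  conv_rhs => rw [h3]
  simp only [Complex.add_re, Complex.ofReal_re, Complex.mul_re, Complex.I_re, mul_zero,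
    Complex.ofReal_im, Complex.I_im, mul_one, sub_self, add_zero, Complex.add_im, Complex.mul_im,
    zero_add, Complex.ofReal_add]
  linear_combination (h.im * L I) * Complex.I_sq

end Pool.Agent.H24.Tri.Aux3
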