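import Pool.Agent.H24.Tri.Defs

set_option autoImplicit false

open MeasureTheory Set Complex Metric Filter Topology
open scoped Real ENNReal NNReal ComplexConjugate

namespace Pool.Agent.H24.Tri.Aux3

/-- Measure preserving shears of `ℂ × ℝ`. -/
theorem rigShear (g : ℝ → ℂ) (hg : Measurable g) (r : ℝ) :
    MeasurePreserving (fun p : ℂ × ℝ => (p.1 + g p.2, p.2 + r)) := by
  have h1 : MeasurePreserving (fun q : ℝ × ℂ => (q.1 + r, q.2 + g q.1))
      ((volume : Measure ℝ).prod (volume : Measure ℂ))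
      ((volume : Measure ℝ).prod (volume : Measure ℂ)) := by
    refine (measurePreserving_add_right (volume : Measure ℝ) r).skew_product
      (g := fun θ z => z + g θ) ?_ ?_
    · fun_prop
    · refine Eventually.of_forall fun a => ?_
      exact (measurePreserving_add_right (volume : Measure ℂ) (g a)).map_eq
  have h2 := (Measure.measurePreserving_swap (μ := (volume : Measure ℝ))
    (ν := (volume : Measure ℂ))).comp (h1.comp (Measure.measurePreserving_swap
      (μ := (volume : Measure ℂ)) (ν := (volume : Measure ℝ))))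
  exact h2

/-- Almost every point of a measurable set returns to it at arbitrarily small nonzero times, for
a measure preserving flow. -/
theorem rigFlow (T : ℝ → ℂ × ℝ → ℂ × ℝ) (hTm : Measurable fun q : ℝ × (ℂ × ℝ) => T q.1 q.2)
    (hTp : ∀ r, MeasurePreserving (T r)) (hT : ∀ r s p, T r (T s p) = T (r + s) p)
    (G : Set (ℂ × ℝ)) (hG : MeasurableSet G) :
    ∀ᵐ p : ℂ × ℝ, p ∈ G → ∃ᶠ r in 𝓝[≠] (0 : ℝ), T r p ∈ G := by
  -- return times
  set S : ℕ → Set ((ℂ × ℝ) × ℝ) := fun n => {q | |q.2| < 1 / ((n : ℝ) + 1) ∧ T q.2 q.1 ∈ G}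
    with hS
  have hSm : ∀ n, MeasurableSet (S n) := by
    intro n
    refine MeasurableSet.inter ?_ ?_
    · exact measurableSet_lt (f := fun q : (ℂ × ℝ) × ℝ => |q.2|)
        (measurable_snd.norm) measurable_const
    · exact (hTm.comp measurable_swap) hG
  set f : ℕ → ℂ × ℝ → ℝ≥0∞ := fun n p => volume (Prod.mk p ⁻¹' S n) with hf
  have hfm : ∀ n, Measurable (f n) := fun n => measurable_measure_prodMk_left (hSm n)
  have hnull : ∀ n, volume {p | p ∈ G ∧ f n p = 0} = 0 := by
    intro n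
    set B : Set (ℂ × ℝ) := {p | p ∈ G ∧ f n p = 0} with hB
    have hBm : MeasurableSet B := hG.inter ((hfm n) (measurableSet_singleton 0))
    set ε : ℝ := 1 / ((n : ℝ) + 1) with hε
    have hεpos : 0 < ε := by positivity
    set R : Set (ℝ × (ℂ × ℝ)) := {q | |q.1| < ε / 2 ∧ T q.1 q.2 ∈ B} with hR
    have hRm : MeasurableSet R := by
      refine MeasurableSet.inter ?_ (hTm hBm)
      exact measurableSet_lt (f := fun q : ℝ × (ℂ × ℝ) => |q.1|)
        (measurable_fst.norm) measurable_const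
    have hslice : ∀ p : ℂ × ℝ, volume ((fun s : ℝ => (s, p)) ⁻¹' R) = 0 := by
      intro p
      by_cases hne : ((fun s : ℝ => (s, p)) ⁻¹' R).Nonempty
      · obtain ⟨s, hs⟩ := hne
        have hs1 : |s| < ε / 2 := hs.1
        have hs2 : T s p ∈ B := hs.2
        have hz : volume (Prod.mk (T s p) ⁻¹' S n) = 0 := hs2.2
        have hz2 : volume ((fun r : ℝ => r - s) ⁻¹' (Prod.mk (T s p) ⁻¹' S n)) = 0 := by
          rw [(measurePreserving_sub_right (volume : Measure ℝ) s).measure_preimage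
            ((measurable_prodMk_left (hSm n)).nullMeasurableSet)]
          exact hz
        refine measure_mono_null ?_ hz2
        intro s' hs'
        have h1 : |s'| < ε / 2 := hs'.1
        have h2 : T s' p ∈ B := hs'.2
        refine ⟨?_, ?_⟩
        · show |s' - s| < ε
          calc |s' - s| ≤ |s'| + |s| := abs_sub _ _
            _ < ε := by linarith
        · show T (s' - s) (T s p) ∈ G
          rw [hT, sub_add_cancel]
          exact h2.1
      · rw [Set.not_nonempty_iff_eq_empty.1 hne]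
        simp
    have hR0 : ((volume : Measure ℝ).prod (volume : Measure (ℂ × ℝ))) R = 0 := by
      rw [Measure.prod_apply_symm hRm]
      simp [hslice]
    have hae := (Measure.measure_prod_null hRm).1 hR0
    by_contra hBne
    have hball : volume (Metric.ball (0 : ℝ) (ε / 2)) = 0 := by
      refine measure_mono_null ?_ hae
      intro s hs hs0
      have hs1 : |s| < ε / 2 := by simpa using hs
      have h1 : Prod.mk s ⁻¹' R = T s ⁻¹' B := by
        ext p
        simp [hR, hs1]
      have h2 : volume (Prod.mk s ⁻¹' R) = 0 := hs0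
      rw [h1, (hTp s).measure_preimage hBm.nullMeasurableSet] at h2
      exact hBne h2
    rw [Real.volume_ball] at hball
    simp at hball
    linarith
  have hall : ∀ᵐ p : ℂ × ℝ, ∀ n, ¬ (p ∈ G ∧ f n p = 0) := by
    rw [ae_all_iff]
    intro n
    rw [ae_iff]
    simpa using hnull n
  filter_upwards [hall] with p hp hpG
  rw [Filter.frequently_iff]
  intro U hU
  obtain ⟨ε, hε, hεU⟩ := Metric.mem_nhdsWithin_iff.1 hU
  obtain ⟨n, hn⟩ := exists_nat_one_div_lt hε
  have hpos : f n p ≠ 0 := fun h => hp n ⟨hpG, h⟩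
  have hpos' : volume ((Prod.mk p ⁻¹' S n) \ {0}) ≠ 0 := by
    rw [measure_sdiff_null (by simp)]
    exact hpos
  obtain ⟨r, hr⟩ := nonempty_of_measure_ne_zero hpos'
  refine ⟨r, hεU ⟨?_, hr.2⟩, hr.1.2⟩
  have : |r| < 1 / ((n : ℝ) + 1) := hr.1.1
  simpa using this.trans hn

theorem cis_add (a b : ℝ) : cis (a + b) = cis a * cis b := by
  unfold cis
  rw [← Complex.exp_add]
  congr 1
  push_cast
  ring

theorem hasDerivAt_cis (x : ℝ) : HasDerivAt cis (I * cis x) x := by
  have h1 : HasDerivAt (fun y : ℝ => (y : ℂ) * I) I x := by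
    simpa using (Complex.ofRealCLM.hasDerivAt (x := x)).mul_const I
  have h2 := h1.cexp
  unfold cis
  rw [mul_comm]
  exact h2

theorem measurable_cis : Measurable cis := by
  have : Continuous cis := by
    unfold cis
    fun_prop
  exact this.measurable

theorem cis_mul_conj (x : ℝ) : cis x * conj (cis x) = 1 := by
  unfold cis
  rw [← Complex.exp_conj, ← Complex.exp_add]
  simp

theorem cis_ne (x : ℝ) : cis x ≠ 0 := Complex.exp_ne_zero _

/-- The flow moving along the angle and keeping `z + c cis θ` fixed. -/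
noncomputable def rigT (c : ℂ) (r : ℝ) (p : ℂ × ℝ) : ℂ × ℝ :=
  (p.1 + (c * cis p.2 - c * cis (p.2 + r)), p.2 + r)

theorem rigT_acc (c : ℂ) (G : Set (ℂ × ℝ)) (hG : MeasurableSet G) :
    ∀ᵐ p : ℂ × ℝ, p ∈ G → ∃ᶠ r in 𝓝[≠] (0 : ℝ), rigT c r p ∈ G := by
  refine rigFlow (rigT c) ?_ ?_ ?_ G hG
  · unfold rigT
    have := measurable_cis
    fun_prop
  · intro r
    refine rigShear (fun θ => c * cis θ - c * cis (θ + r)) ?_ r
    have := measurable_cis
    fun_prop
  · intro r s p
    unfold rigT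
    ext
    · simp only
      rw [show p.2 + s + r = p.2 + (r + s) by ring]
      ring
    · simp only
      ring

theorem rigH_acc (h : ℂ) (G : Set (ℂ × ℝ)) (hG : MeasurableSet G) :
    ∀ᵐ p : ℂ × ℝ, p ∈ G → ∃ᶠ r in 𝓝[≠] (0 : ℝ), (p.1 + ((r : ℝ) : ℂ) * h, p.2) ∈ G := by
  refine rigFlow (fun r p => (p.1 + r * h, p.2)) ?_ ?_ ?_ G hG
  · fun_prop
  · intro r
    have := rigShear (fun _ => (r : ℂ) * h) measurable_const 0
    simpa using this
  · intro r s p
    ext
    · simp only
      push_cast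
      ring
    · rfl

/-- Fubini for positive measure. -/
theorem rigPos (G : Set (ℂ × ℝ)) (hG : MeasurableSet G) (Z : Set ℂ) (hZ : MeasurableSet Z)
    (hpos : 0 < volume Z) (h : ∀ z ∈ Z, 0 < volume {θ : ℝ | (z, θ) ∈ G}) :
    0 < volume (G ∩ {p | p.1 ∈ Z}) := by
  rw [pos_iff_ne_zero]
  intro h0
  have hm : MeasurableSet (G ∩ {p : ℂ × ℝ | p.1 ∈ Z}) := hG.inter (measurable_fst hZ)
  have hae := (Measure.measure_prod_null (μ := (volume : Measure ℂ)) (ν := (volume : Measure ℝ))
    hm).1 h0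
  refine hpos.ne' (measure_mono_null ?_ hae)
  intro z hz hz0
  have h1 : Prod.mk z ⁻¹' (G ∩ {p : ℂ × ℝ | p.1 ∈ Z}) = {θ : ℝ | (z, θ) ∈ G} := by
    ext θ
    simp [hz]
  have h2 : volume (Prod.mk z ⁻¹' (G ∩ {p : ℂ × ℝ | p.1 ∈ Z})) = 0 := hz0
  rw [h1] at h2
  exact (h z hz).ne' h2

end Pool.Agent.H24.Tri.Aux3
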