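import Pool.Agent.H3.Tri.Alg

set_option autoImplicit false

open MeasureTheory Set Complex Metric Filter Topology
open scoped Real ENNReal NNReal ComplexConjugate

namespace Pool.Agent.H24.Tri.Aux3

theorem rigT_zero (c : ℂ) (p : ℂ × ℝ) : rigT c 0 p = p := by
  unfold rigT
  ext <;> simp

theorem cis_shift (x : ℝ) : HasDerivAt (fun r : ℝ => cis (x + r)) (I * cis x) 0 := by
  refine HasDerivAt.comp_const_add x 0 ?_
  simpa using hasDerivAt_cis x

theorem rigT_deriv (F : ℂ → ℂ) (c : ℂ) (p : ℂ × ℝ) (hF : DifferentiableAt ℝ F p.1) :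
    HasDerivAt (fun r => F ((rigT c r p).1)) (fderiv ℝ F p.1 (-(c * (I * cis p.2)))) 0 := by
  have h1 : HasDerivAt (fun r : ℝ => (rigT c r p).1) (-(c * (I * cis p.2))) 0 := by
    unfold rigT
    simp only
    have h2 := cis_shift p.2
    exact ((h2.const_mul c).const_sub (c * cis p.2)).const_add p.1
  have h0 : (fun r : ℝ => (rigT c r p).1) 0 = p.1 := by
    simp [rigT_zero]
  have h3 : HasFDerivAt F (fderiv ℝ F p.1) ((fun r : ℝ => (rigT c r p).1) 0) := by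
    rw [h0]
    exact hF.hasFDerivAt
  exact h3.comp_hasDerivAt 0 h1

theorem rigT_deriv2 (F : ℂ → ℂ) (c : ℂ) (p : ℂ × ℝ)
    (hF : DifferentiableAt ℝ F (p.1 + cis p.2)) :
    HasDerivAt (fun r => F ((rigT c r p).1 + cis (rigT c r p).2))
      (fderiv ℝ F (p.1 + cis p.2) ((1 - c) * (I * cis p.2))) 0 := by
  have h1 : HasDerivAt (fun r : ℝ => (rigT c r p).1 + cis (rigT c r p).2)
      ((1 - c) * (I * cis p.2)) 0 := by
    unfold rigT
    simp only
    have h2 := cis_shift p.2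
    refine (((h2.const_mul c).const_sub (c * cis p.2)).const_add p.1 |>.add h2).congr_deriv ?_
    ring
  have h0 : (fun r : ℝ => (rigT c r p).1 + cis (rigT c r p).2) 0 = p.1 + cis p.2 := by
    simp [rigT_zero]
  have h3 : HasFDerivAt F (fderiv ℝ F (p.1 + cis p.2))
      ((fun r : ℝ => (rigT c r p).1 + cis (rigT c r p).2) 0) := by
    rw [h0]
    exact hF.hasFDerivAt
  exact h3.comp_hasDerivAt 0 h1

section rel

variable (ρ : ℂ) (hi : ρ.im ≠ 0) (F₁ F₂ K₃ : ℂ → ℂ) (G : Set (ℂ × ℝ)) (t : ℂ × ℝ → ℝ)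
  (e12 : ∀ p ∈ G, F₂ (p.1 + cis p.2) - F₁ p.1 = t p * cis p.2 / (conj ρ * (conj ρ - 1)))
  (e13 : ∀ p ∈ G, K₃ (p.1 + ρ * cis p.2) - F₁ p.1 = t p * cis p.2 / (conj ρ - 1))

include hi in
theorem rig_ne : conj ρ ≠ 0 ∧ conj ρ - 1 ≠ 0 := by
  constructor
  · intro h
    apply hi
    have := congrArg Complex.im h
    simpa using this
  · intro h
    apply hi
    have := congrArg Complex.im h
    simpa using this

include hi e12 in
theorem rigR1 (p : ℂ × ℝ) (hp : p ∈ G) (d1 : DifferentiableAt ℝ F₁ p.1)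
    (hS : ∃ᶠ r in 𝓝[≠] (0 : ℝ), rigT 1 r p ∈ G) :
    (rigA (fderiv ℝ F₁ p.1) * (conj ρ * (conj ρ - 1)) -
      rigB (fderiv ℝ F₁ p.1) * (conj ρ * (conj ρ - 1)) * conj (cis p.2) ^ 2).re = t p := by
  obtain ⟨hc, hc1⟩ := rig_ne ρ hi
  have hu := cis_mul_conj p.2
  have hune := cis_ne p.2
  set u := cis p.2 with hudef
  set κ : ℂ := -(u / (conj ρ * (conj ρ - 1))) with hκ
  have hκ0 : κ ≠ 0 := by
    rw [hκ, neg_ne_zero]
    exact div_ne_zero hune (mul_ne_zero hc hc1)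
  have h := (rigLim (fun r => F₁ ((rigT 1 r p).1)) (fderiv ℝ F₁ p.1 (-(1 * (I * u)))) κ hκ0
    (fun r => t (rigT 1 r p)) (t p) {r | rigT 1 r p ∈ G} hS (rigT_deriv F₁ 1 p d1) ?_).1
  · rw [rigAB] at h
    have e : (rigA (fderiv ℝ F₁ p.1) * -(1 * (I * u)) +
        rigB (fderiv ℝ F₁ p.1) * conj (-(1 * (I * u)))) / κ =
        (rigA (fderiv ℝ F₁ p.1) * (conj ρ * (conj ρ - 1)) -
      rigB (fderiv ℝ F₁ p.1) * (conj ρ * (conj ρ - 1)) * conj u ^ 2) * I := by
      rw [div_eq_iff hκ0, hκ]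
      simp only [map_neg, map_mul, map_one, Complex.conj_I]
      field_simp
      linear_combination (-(rigB (fderiv ℝ F₁ p.1) * conj u)) * hu
    rw [e, Complex.mul_I_im] at h
    exact h
  · intro r hr
    have a1 := e12 _ hr
    have a2 := e12 p hp
    have e1 : (rigT 1 r p).1 + cis (rigT 1 r p).2 = p.1 + u := by
      simp only [rigT]
      ring
    have e2 : cis (rigT 1 r p).2 = u * cis r := by
      simp only [rigT]
      rw [cis_add]
    rw [e1, e2] at a1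
    simp only [rigT_zero]
    rw [← hudef] at a2
    rw [hκ]
    linear_combination a2 - a1

include hi e13 in
theorem rigR2 (p : ℂ × ℝ) (hp : p ∈ G) (d1 : DifferentiableAt ℝ F₁ p.1)
    (hS : ∃ᶠ r in 𝓝[≠] (0 : ℝ), rigT ρ r p ∈ G) :
    (rigA (fderiv ℝ F₁ p.1) * (conj ρ * (conj ρ - 1)) * (ρ / conj ρ) -
      rigB (fderiv ℝ F₁ p.1) * (conj ρ * (conj ρ - 1)) * conj (cis p.2) ^ 2).re = t p := by
  obtain ⟨hc, hc1⟩ := rig_ne ρ hi
  have hu := cis_mul_conj p.2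
  have hune := cis_ne p.2
  set u := cis p.2 with hudef
  set κ : ℂ := -(u / (conj ρ - 1)) with hκ
  have hκ0 : κ ≠ 0 := by
    rw [hκ, neg_ne_zero]
    exact div_ne_zero hune hc1
  have h := (rigLim (fun r => F₁ ((rigT ρ r p).1)) (fderiv ℝ F₁ p.1 (-(ρ * (I * u)))) κ hκ0
    (fun r => t (rigT ρ r p)) (t p) {r | rigT ρ r p ∈ G} hS (rigT_deriv F₁ ρ p d1) ?_).1
  · rw [rigAB] at h
    have e : (rigA (fderiv ℝ F₁ p.1) * -(ρ * (I * u)) +
        rigB (fderiv ℝ F₁ p.1) * conj (-(ρ * (I * u)))) / κ =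
        (rigA (fderiv ℝ F₁ p.1) * (conj ρ * (conj ρ - 1)) * (ρ / conj ρ) -
      rigB (fderiv ℝ F₁ p.1) * (conj ρ * (conj ρ - 1)) * conj u ^ 2) * I := by
      rw [div_eq_iff hκ0, hκ]
      simp only [map_neg, map_mul, Complex.conj_I]
      field_simp
      linear_combination (-(rigB (fderiv ℝ F₁ p.1) * conj ρ * conj u)) * hu
    rw [e, Complex.mul_I_im] at h
    exact h
  · intro r hr
    have a1 := e13 _ hr
    have a2 := e13 p hp
    have e1 : (rigT ρ r p).1 + ρ * cis (rigT ρ r p).2 = p.1 + ρ * u := by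
      simp only [rigT]
      ring
    have e2 : cis (rigT ρ r p).2 = u * cis r := by
      simp only [rigT]
      rw [cis_add]
    rw [e1, e2] at a1
    simp only [rigT_zero]
    rw [← hudef] at a2
    rw [hκ]
    linear_combination a2 - a1

include hi e12 in
theorem rigR3 (p : ℂ × ℝ) (hp : p ∈ G) (d2 : DifferentiableAt ℝ F₂ (p.1 + cis p.2))
    (A₁ B₁ : ℂ) (hR1 : ∀ r, rigT 0 r p ∈ G →
      (A₁ - B₁ * conj (cis (p.2 + r)) ^ 2).re = t (rigT 0 r p))
    (hS : ∃ᶠ r in 𝓝[≠] (0 : ℝ), rigT 0 r p ∈ G) :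
    (rigA (fderiv ℝ F₂ (p.1 + cis p.2)) * (conj ρ * (conj ρ - 1)) -
      rigB (fderiv ℝ F₂ (p.1 + cis p.2)) * (conj ρ * (conj ρ - 1)) *
        conj (cis p.2) ^ 2).re = t p ∧
    (rigA (fderiv ℝ F₂ (p.1 + cis p.2)) * (conj ρ * (conj ρ - 1)) -
      rigB (fderiv ℝ F₂ (p.1 + cis p.2)) * (conj ρ * (conj ρ - 1)) *
        conj (cis p.2) ^ 2).im = 2 * (B₁ * conj (cis p.2) ^ 2).im := by
  obtain ⟨hc, hc1⟩ := rig_ne ρ hi
  have hu := cis_mul_conj p.2
  have hune := cis_ne p.2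
  set u := cis p.2 with hudef
  set κ : ℂ := u / (conj ρ * (conj ρ - 1)) with hκ
  have hκ0 : κ ≠ 0 := div_ne_zero hune (mul_ne_zero hc hc1)
  have h := rigLim (fun r => F₂ ((rigT 0 r p).1 + cis (rigT 0 r p).2))
    (fderiv ℝ F₂ (p.1 + u) ((1 - 0) * (I * u))) κ hκ0
    (fun r => t (rigT 0 r p)) (t p) {r | rigT 0 r p ∈ G} hS (rigT_deriv2 F₂ 0 p d2) ?_
  · have e : (fderiv ℝ F₂ (p.1 + u) ((1 - 0) * (I * u))) / κ =
        (rigA (fderiv ℝ F₂ (p.1 + u)) * (conj ρ * (conj ρ - 1)) -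
      rigB (fderiv ℝ F₂ (p.1 + u)) * (conj ρ * (conj ρ - 1)) * conj u ^ 2) * I := by
      rw [rigAB, div_eq_iff hκ0, hκ]
      simp only [sub_zero, one_mul, map_mul, Complex.conj_I]
      field_simp
      linear_combination (rigB (fderiv ℝ F₂ (p.1 + u)) * conj u) * hu
    rw [e, Complex.mul_I_im, Complex.mul_I_re] at h
    refine ⟨h.1, ?_⟩
    have hd : HasDerivAt (fun r : ℝ => (A₁ - B₁ * conj (cis (p.2 + r)) ^ 2).re)
        (-(2 * (B₁ * conj u ^ 2).im)) 0 := by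
      have h2 := cis_shift p.2
      rw [← hudef] at h2
      have h3 : HasDerivAt (fun r : ℝ => conj (cis (p.2 + r))) (conj (I * u)) 0 :=
        Complex.conjCLE.toContinuousLinearMap.hasFDerivAt.comp_hasDerivAt (0 : ℝ) h2
      have h4 := ((h3.pow 2).const_mul B₁).const_sub A₁
      have h5 := Complex.reCLM.hasFDerivAt.comp_hasDerivAt (0 : ℝ) h4
      refine h5.congr_deriv ?_
      have : (-(B₁ * (((2 : ℕ) : ℂ) * conj (cis (p.2 + 0)) ^ (2 - 1) * conj (I * u)))) =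
          2 * ((B₁ * conj u ^ 2) * I) := by
        rw [add_zero, ← hudef]
        simp only [map_mul, Complex.conj_I]
        push_cast
        ring
      rw [this]
      simp only [Complex.reCLM_apply]
      rw [show (2 : ℂ) = ((2 : ℝ) : ℂ) by norm_num, Complex.re_ofReal_mul, Complex.mul_I_re]
      ring
    have hzero : (A₁ - B₁ * conj (cis (p.2 + 0)) ^ 2).re = t p := by
      have := hR1 0 (by rw [rigT_zero]; exact hp)
      rwa [rigT_zero] at this
    have h6 := h.2 (fun r : ℝ => (A₁ - B₁ * conj (cis (p.2 + r)) ^ 2).re) _ hd hzero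
      (fun r hr => (hR1 r hr).symm)
    linarith
  · intro r hr
    have a1 := e12 _ hr
    have a2 := e12 p hp
    have e1 : (rigT 0 r p).1 = p.1 := by
      simp [rigT]
    have e2 : cis (rigT 0 r p).2 = u * cis r := by
      simp only [rigT]
      rw [cis_add]
    rw [e1, e2] at a1
    simp only [rigT_zero, e1, e2]
    rw [← hudef] at a2 ⊢
    rw [hκ]
    linear_combination a1 - a2

include hi e12 e13 in
theorem rigR4 (p : ℂ × ℝ) (hp : p ∈ G) (d2 : DifferentiableAt ℝ F₂ (p.1 + cis p.2))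
    (hS : ∃ᶠ r in 𝓝[≠] (0 : ℝ), rigT ρ r p ∈ G) :
    (rigA (fderiv ℝ F₂ (p.1 + cis p.2)) * (conj ρ * (conj ρ - 1)) *
      ((ρ - 1) / (conj ρ - 1)) -
      rigB (fderiv ℝ F₂ (p.1 + cis p.2)) * (conj ρ * (conj ρ - 1)) *
        conj (cis p.2) ^ 2).re = t p := by
  obtain ⟨hc, hc1⟩ := rig_ne ρ hi
  have hu := cis_mul_conj p.2
  have hune := cis_ne p.2
  set u := cis p.2 with hudef
  set κ : ℂ := -(u / conj ρ) with hκ
  have hκ0 : κ ≠ 0 := by
    rw [hκ, neg_ne_zero]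
    exact div_ne_zero hune hc
  have h := (rigLim (fun r => F₂ ((rigT ρ r p).1 + cis (rigT ρ r p).2))
    (fderiv ℝ F₂ (p.1 + u) ((1 - ρ) * (I * u))) κ hκ0
    (fun r => t (rigT ρ r p)) (t p) {r | rigT ρ r p ∈ G} hS (rigT_deriv2 F₂ ρ p d2) ?_).1
  · have e : (fderiv ℝ F₂ (p.1 + u) ((1 - ρ) * (I * u))) / κ =
        (rigA (fderiv ℝ F₂ (p.1 + u)) * (conj ρ * (conj ρ - 1)) * ((ρ - 1) / (conj ρ - 1)) -
      rigB (fderiv ℝ F₂ (p.1 + u)) * (conj ρ * (conj ρ - 1)) * conj u ^ 2) * I := by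
      rw [rigAB, div_eq_iff hκ0, hκ]
      simp only [map_mul, map_sub, map_one, Complex.conj_I]
      field_simp
      linear_combination (rigB (fderiv ℝ F₂ (p.1 + u)) * (1 - conj ρ) * conj u) * hu
    rw [e, Complex.mul_I_im] at h
    exact h
  · intro r hr
    have a1 := e12 _ hr
    have a2 := e12 p hp
    have a3 := e13 _ hr
    have a4 := e13 p hp
    have e1 : (rigT ρ r p).1 + ρ * cis (rigT ρ r p).2 = p.1 + ρ * u := by
      simp only [rigT]
      ring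
    have e2 : cis (rigT ρ r p).2 = u * cis r := by
      simp only [rigT]
      rw [cis_add]
    rw [e1, e2] at a3
    rw [e2] at a1
    rw [← hudef] at a2 a4
    simp only [rigT_zero, e2]
    rw [hκ]
    have key : ∀ w : ℂ, w / (conj ρ - 1) - w / (conj ρ * (conj ρ - 1)) = w / conj ρ := by
      intro w
      field_simp
    have k1 := key (t (rigT ρ r p) * (u * cis r))
    have k2 := key (t p * u)
    linear_combination a1 - a2 - a3 + a4 - k1 + k2

include hi e12 in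
theorem rigR5 (h : ℂ) (p : ℂ × ℝ) (hp : p ∈ G) (d1 : DifferentiableAt ℝ F₁ p.1)
    (d2 : DifferentiableAt ℝ F₂ (p.1 + cis p.2))
    (hS : ∃ᶠ r in 𝓝[≠] (0 : ℝ), (p.1 + ((r : ℝ) : ℂ) * h, p.2) ∈ G) :
    (((fderiv ℝ F₂ (p.1 + cis p.2) h - fderiv ℝ F₁ p.1 h) * (conj ρ * (conj ρ - 1))) *
      conj (cis p.2)).im = 0 := by
  obtain ⟨hc, hc1⟩ := rig_ne ρ hi
  have hu := cis_mul_conj p.2
  have hune := cis_ne p.2
  set u := cis p.2 with hudef
  set κ : ℂ := u / (conj ρ * (conj ρ - 1)) with hκ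
  have hκ0 : κ ≠ 0 := div_ne_zero hune (mul_ne_zero hc hc1)
  have hd : HasDerivAt (fun r : ℝ => F₂ (p.1 + r * h + u) - F₁ (p.1 + r * h))
      (fderiv ℝ F₂ (p.1 + u) h - fderiv ℝ F₁ p.1 h) 0 := by
    have h1 : HasDerivAt (fun r : ℝ => p.1 + (r : ℂ) * h) h 0 := by
      have := ((Complex.ofRealCLM.hasDerivAt (x := (0 : ℝ))).mul_const h).const_add p.1
      simpa using this
    have h2 : HasDerivAt (fun r : ℝ => p.1 + (r : ℂ) * h + u) h 0 := h1.add_const u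
    have h3 : HasFDerivAt F₁ (fderiv ℝ F₁ p.1) ((fun r : ℝ => p.1 + (r : ℂ) * h) 0) := by
      simpa using d1.hasFDerivAt
    have h4 : HasFDerivAt F₂ (fderiv ℝ F₂ (p.1 + u)) ((fun r : ℝ => p.1 + (r : ℂ) * h + u) 0) := by
      simpa using d2.hasFDerivAt
    exact (h4.comp_hasDerivAt 0 h2).sub (h3.comp_hasDerivAt 0 h1)
  have hh := rigLim' (fun r : ℝ => F₂ (p.1 + r * h + u) - F₁ (p.1 + r * h)) _ κ hκ0
    (fun r => t (p.1 + r * h, p.2)) (t p) {r : ℝ | (p.1 + (r : ℂ) * h, p.2) ∈ G} hS hd ?_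
  · have e : (fderiv ℝ F₂ (p.1 + u) h - fderiv ℝ F₁ p.1 h) / κ =
        ((fderiv ℝ F₂ (p.1 + u) h - fderiv ℝ F₁ p.1 h) * (conj ρ * (conj ρ - 1))) * conj u := by
      rw [div_eq_iff hκ0, hκ]
      field_simp
      linear_combination (-(fderiv ℝ F₂ (p.1 + u) h - fderiv ℝ F₁ p.1 h)) * hu
    rwa [e] at hh
  · intro r hr
    have a1 := e12 _ hr
    have a2 := e12 p hp
    simp only at a1
    rw [← hudef] at a1 a2
    simp only [Complex.ofReal_zero, zero_mul, add_zero]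
    rw [hκ]
    linear_combination a1 - a2

end rel

end Pool.Agent.H24.Tri.Aux3
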