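import Pool.Agent.H3.Tri.Rel
import Pool.Agent.H58.Tri.RigL3

set_option autoImplicit false

open MeasureTheory Set Complex Metric Filter Topology
open scoped Real ENNReal NNReal ComplexConjugate

namespace Pool.Agent.H24.Tri

namespace Aux3

theorem rigA_meas (F : ℂ → ℂ) : Measurable fun z => rigA (fderiv ℝ F z) := by
  unfold rigA
  have h1 := measurable_fderiv_apply_const ℝ F (1 : ℂ)
  have h2 := measurable_fderiv_apply_const ℝ F I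
  fun_prop

theorem rigB_meas (F : ℂ → ℂ) : Measurable fun z => rigB (fderiv ℝ F z) := by
  unfold rigB
  have h1 := measurable_fderiv_apply_const ℝ F (1 : ℂ)
  have h2 := measurable_fderiv_apply_const ℝ F I
  fun_prop

theorem rigA_norm (L : ℂ →L[ℝ] ℂ) (C : ℝ) (hC : ‖L‖ ≤ C) : ‖rigA L‖ ≤ C := by
  unfold rigA
  have h1 : ‖L 1‖ ≤ C := by simpa using (L.le_of_opNorm_le hC 1)
  have h2 : ‖I * L I‖ ≤ C := by simpa using (L.le_of_opNorm_le hC I)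
  rw [norm_div]
  have := norm_sub_le (L 1) (I * L I)
  have h3 : ‖(2 : ℂ)‖ = 2 := by simp
  rw [h3, div_le_iff₀ two_pos]
  linarith

theorem rigB_norm (L : ℂ →L[ℝ] ℂ) (C : ℝ) (hC : ‖L‖ ≤ C) : ‖rigB L‖ ≤ C := by
  unfold rigB
  have h1 : ‖L 1‖ ≤ C := by simpa using (L.le_of_opNorm_le hC 1)
  have h2 : ‖I * L I‖ ≤ C := by simpa using (L.le_of_opNorm_le hC I)
  rw [norm_div]
  have := norm_add_le (L 1) (I * L I)
  have h3 : ‖(2 : ℂ)‖ = 2 := by simp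
  rw [h3, div_le_iff₀ two_pos]
  linarith

/-- Restricting to a set of base points. -/
theorem rigStep (ρ : ℂ) (hi : ρ.im ≠ 0) (h0 : ρ.re ≠ 0) (h1 : ρ.re ≠ 1)
    (K₁ K₂ K₃ : ℂ → ℂ) (m₁ : Measurable K₁) (m₂ : Measurable K₂) (m₃ : Measurable K₃)
    (C : ℝ) (b₁ : ∀ z, ‖K₁ z‖ ≤ C) (b₂ : ∀ z, ‖K₂ z‖ ≤ C)
    (G : Set (ℂ × ℝ)) (hG : MeasurableSet G) (hpos : 0 < volume G)
    (t : ℂ × ℝ → ℝ)
    (h12 : ∀ p ∈ G, K₂ (p.1 + cis p.2) - K₁ p.1 = t p * cis p.2 / (conj ρ * (conj ρ - 1)))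
    (h13 : ∀ p ∈ G, K₃ (p.1 + ρ * cis p.2) - K₁ p.1 = t p * cis p.2 / (conj ρ - 1)) :
    ∃ (F₁ F₂ : ℂ → ℂ) (C₁ C₂ : ℝ≥0) (G' : Set (ℂ × ℝ)), LipschitzWith C₁ F₁ ∧
      LipschitzWith C₂ F₂ ∧ G' ⊆ G ∧ MeasurableSet G' ∧ 0 < volume G' ∧
      (∀ p ∈ G', K₁ p.1 = F₁ p.1) ∧ (∀ p ∈ G', K₂ (p.1 + cis p.2) = F₂ (p.1 + cis p.2)) := by
  obtain ⟨hc, hc1⟩ := rig_ne ρ hi
  have hρ : ρ ≠ 0 := by
    rintro rfl
    simp at hi
  have hρ1 : ρ - 1 ≠ 0 := by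
    intro h
    apply hi
    have := congrArg Complex.im h
    simpa using this
  have hT : ∀ p ∈ G, |t p| ≤ 2 * C * ‖conj ρ * (conj ρ - 1)‖ := by
    intro p hp
    have e := h12 p hp
    have e2 : (t p : ℂ) = (K₂ (p.1 + cis p.2) - K₁ p.1) * (conj ρ * (conj ρ - 1)) *
        conj (cis p.2) := by
      rw [e]
      have := cis_mul_conj p.2
      field_simp
      linear_combination (-(t p : ℂ)) * this
    have hn : ‖conj (cis p.2)‖ = 1 := by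
      rw [RCLike.norm_conj]
      unfold cis
      exact Complex.norm_exp_ofReal_mul_I _
    have e3 : |t p| = ‖(t p : ℂ)‖ := by simp
    rw [e3, e2, norm_mul, norm_mul, hn, mul_one]
    refine mul_le_mul_of_nonneg_right ?_ (norm_nonneg _)
    calc ‖K₂ (p.1 + cis p.2) - K₁ p.1‖ ≤ ‖K₂ (p.1 + cis p.2)‖ + ‖K₁ p.1‖ := norm_sub_le _ _
      _ ≤ 2 * C := by
        have := b₁ p.1
        have := b₂ (p.1 + cis p.2)
        linarith
  set l12 : ℂ := 1 / (conj ρ * (conj ρ - 1)) with hl12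
  set l13 : ℂ := 1 / (ρ * (conj ρ - 1)) with hl13
  set l23 : ℂ := 1 / (conj ρ * (ρ - 1)) with hl23
  have im_of : ∀ (a b w : ℂ) (s : ℝ), s ≠ 0 → conj a * b = s * w → w.im ≠ 0 →
      (conj a * b).im ≠ 0 := by
    intro a b w s hs h hw
    rw [h, Complex.im_ofReal_mul]
    exact mul_ne_zero hs hw
  have hn1 : Complex.normSq (ρ - 1) ≠ 0 := by simpa using hρ1
  have hn2 : Complex.normSq ρ ≠ 0 := by simpa using hρ
  -- vertex 1
  obtain ⟨Z₁, hZ₁, hZ₁pos, ⟨C₁, hL₁⟩, hsl₁⟩ := rigL3 1 ρ l12 l13 one_ne_zero hρ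
    (by simpa using hi) (by rw [hl12]; exact one_div_ne_zero (mul_ne_zero hc hc1))
    (by rw [hl13]; exact one_div_ne_zero (mul_ne_zero hρ hc1))
    (by
      refine im_of l12 l13 (conj ρ ^ 2)
        (1 / (Complex.normSq (ρ - 1) * Complex.normSq ρ ^ 2)) (by positivity) ?_ ?_
      · rw [hl12, hl13]
        push_cast
        rw [Complex.normSq_eq_conj_mul_self, Complex.normSq_eq_conj_mul_self]
        simp only [map_div₀, map_mul, map_one, map_sub, Complex.conj_conj]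
        field_simp
      · rw [pow_two, Complex.mul_im, Complex.conj_re, Complex.conj_im]
        intro h
        have : ρ.re * ρ.im = 0 := by linarith
        exact (mul_ne_zero h0 hi) this)
    K₁ K₂ K₃ m₁ m₂ m₃ C b₁ G hG hpos t _ hT
    (by
      intro p hp
      rw [one_mul, h12 p hp, hl12]
      ring)
    (by
      intro p hp
      rw [h13 p hp, hl13]
      field_simp)
  have hG₁pos := rigPos G hG Z₁ hZ₁ hZ₁pos hsl₁
  set G₁ : Set (ℂ × ℝ) := G ∩ {p | p.1 ∈ Z₁} with hG₁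
  have hG₁m : MeasurableSet G₁ := hG.inter (measurable_fst hZ₁)
  -- vertex 2
  have hsh := rigShear (fun θ => -cis θ) measurable_cis.neg 0
  set Ψ : ℂ × ℝ → ℂ × ℝ := fun p => (p.1 + -cis p.2, p.2 + 0) with hΨ
  set G₂ : Set (ℂ × ℝ) := Ψ ⁻¹' G₁ with hG₂
  have hG₂m : MeasurableSet G₂ := hsh.measurable hG₁m
  have hG₂pos : 0 < volume G₂ := by
    rw [hG₂, hsh.measure_preimage hG₁m.nullMeasurableSet]
    exact hG₁pos
  obtain ⟨Z₂, hZ₂, hZ₂pos, ⟨C₂, hL₂⟩, hsl₂⟩ := rigL3 (-1) (ρ - 1) l12 l23 (by simp) hρ1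
    (by simpa using hi) (by rw [hl12]; exact one_div_ne_zero (mul_ne_zero hc hc1))
    (by rw [hl23]; exact one_div_ne_zero (mul_ne_zero hc hρ1))
    (by
      refine im_of l12 l23 (conj (ρ - 1) ^ 2)
        (1 / (Complex.normSq (ρ - 1) ^ 2 * Complex.normSq ρ)) (by positivity) ?_ ?_
      · rw [hl12, hl23]
        push_cast
        rw [Complex.normSq_eq_conj_mul_self, Complex.normSq_eq_conj_mul_self]
        simp only [map_div₀, map_mul, map_one, map_sub, Complex.conj_conj]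
        field_simp
      · rw [pow_two, Complex.mul_im, Complex.conj_re, Complex.conj_im]
        simp only [Complex.sub_re, Complex.one_re, Complex.sub_im, Complex.one_im]
        intro h
        have : (ρ.re - 1) * ρ.im = 0 := by linarith
        exact (mul_ne_zero (sub_ne_zero.2 h1) hi) this)
    K₂ K₁ K₃ m₂ m₁ m₃ C b₂ G₂ hG₂m hG₂pos (fun p => t (Ψ p)) _
    (fun p hp => hT (Ψ p) hp.1)
    (by
      intro p hp
      have e := h12 (Ψ p) hp.1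
      simp only [hΨ, add_zero, neg_add_cancel_right] at e ⊢
      rw [show p.1 + -1 * cis p.2 = p.1 + -cis p.2 by ring, hl12]
      linear_combination -e)
    (by
      intro p hp
      have e := h12 (Ψ p) hp.1
      have e' := h13 (Ψ p) hp.1
      simp only [hΨ, add_zero, neg_add_cancel_right] at e e' ⊢
      rw [show p.1 + (ρ - 1) * cis p.2 = p.1 + -cis p.2 + ρ * cis p.2 by ring, hl23]
      have key : ∀ w : ℂ, w / (conj ρ - 1) - w / (conj ρ * (conj ρ - 1)) =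
          1 / (conj ρ * (ρ - 1)) * (ρ - 1) * w := by
        intro w
        field_simp
      have k := key ((t (p.1 + -cis p.2, p.2) : ℂ) * cis p.2)
      linear_combination e' - e + k)
  have hG₃pos := rigPos G₂ hG₂m Z₂ hZ₂ hZ₂pos hsl₂
  set G₃ : Set (ℂ × ℝ) := G₂ ∩ {p | p.1 ∈ Z₂} with hG₃
  have hG₃m : MeasurableSet G₃ := hG₂m.inter (measurable_fst hZ₂)
  have hsh2 := rigShear (fun θ => cis θ) measurable_cis 0
  set Φ : ℂ × ℝ → ℂ × ℝ := fun p => (p.1 + cis p.2, p.2 + 0) with hΦ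
  have hΨΦ : ∀ p, Ψ (Φ p) = p := by
    intro p
    simp only [hΨ, hΦ, add_zero]
    ext
    · simp
    · simp
  obtain ⟨F₁, hF₁, hE₁⟩ := hL₁.extend_finite_dimension
  obtain ⟨F₂, hF₂, hE₂⟩ := hL₂.extend_finite_dimension
  refine ⟨F₁, F₂, _, _, Φ ⁻¹' G₃, hF₁, hF₂, ?_, hsh2.measurable hG₃m, ?_, ?_, ?_⟩
  · intro p hp
    have h : Ψ (Φ p) ∈ G₁ := hp.1
    rw [hΨΦ] at h
    exact h.1
  · rw [hsh2.measure_preimage hG₃m.nullMeasurableSet]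
    exact hG₃pos
  · intro p hp
    have h : Ψ (Φ p) ∈ G₁ := hp.1
    rw [hΨΦ] at h
    exact hE₁ h.2
  · intro p hp
    exact hE₂ hp.2

end Aux3

open Aux3 in
/-- FD: first derivatives give the relation (PSI). -/
theorem rigFD (ρ : ℂ) (hi : ρ.im ≠ 0) (h0 : ρ.re ≠ 0) (h1 : ρ.re ≠ 1)
    (K₁ K₂ K₃ : ℂ → ℂ) (m₁ : Measurable K₁) (m₂ : Measurable K₂) (m₃ : Measurable K₃)
    (C : ℝ) (b₁ : ∀ z, ‖K₁ z‖ ≤ C) (b₂ : ∀ z, ‖K₂ z‖ ≤ C) (b₃ : ∀ z, ‖K₃ z‖ ≤ C)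
    (G : Set (ℂ × ℝ)) (hG : MeasurableSet G) (hpos : 0 < volume G)
    (t : ℂ × ℝ → ℝ) (ht : Measurable t) (ht0 : ∀ p ∈ G, t p ≠ 0)
    (h12 : ∀ p ∈ G, K₂ (p.1 + cis p.2) - K₁ p.1 = t p * cis p.2 / (conj ρ * (conj ρ - 1)))
    (h13 : ∀ p ∈ G, K₃ (p.1 + ρ * cis p.2) - K₁ p.1 = t p * cis p.2 / (conj ρ - 1)) :
    ∃ (r₁ r₂ : ℂ → ℝ) (B₁ B₂ : ℂ → ℂ) (G' : Set (ℂ × ℝ)), Measurable r₁ ∧ Measurable r₂ ∧
      Measurable B₁ ∧ Measurable B₂ ∧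
      (∃ b : ℝ, ∀ z, |r₁ z| ≤ b ∧ |r₂ z| ≤ b ∧ ‖B₁ z‖ ≤ b ∧ ‖B₂ z‖ ≤ b) ∧
      G' ⊆ G ∧ MeasurableSet G' ∧ 0 < volume G' ∧
      (∀ p ∈ G', r₂ (p.1 + cis p.2) =
        r₁ p.1 / 2 - 3 / (2 * ρ.im) * (B₁ p.1 * conj (cis p.2) ^ 2).im) ∧
      (∀ p ∈ G', B₂ (p.1 + cis p.2) =
        B₁ p.1 + cis p.2 ^ 2 * (r₂ (p.1 + cis p.2) * (ρ - 1) - r₁ p.1 * ρ)) ∧
      (∀ p ∈ G', t p = r₁ p.1 * ρ.re - (B₁ p.1 * conj (cis p.2) ^ 2).re) := by
  obtain ⟨F₁, F₂, C₁, C₂, G₀, hF₁, hF₂, hG₀G, hG₀, hG₀pos, hE₁, hE₂⟩ :=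
    rigStep ρ hi h0 h1 K₁ K₂ K₃ m₁ m₂ m₃ C b₁ b₂ G hG hpos t h12 h13
  obtain ⟨hc, hc1⟩ := rig_ne ρ hi
  have e12 : ∀ p ∈ G₀, F₂ (p.1 + cis p.2) - F₁ p.1 =
      t p * cis p.2 / (conj ρ * (conj ρ - 1)) := by
    intro p hp
    rw [← hE₁ p hp, ← hE₂ p hp]
    exact h12 p (hG₀G hp)
  have e13 : ∀ p ∈ G₀, K₃ (p.1 + ρ * cis p.2) - F₁ p.1 = t p * cis p.2 / (conj ρ - 1) := by
    intro p hp
    rw [← hE₁ p hp]
    exact h13 p (hG₀G hp)
  have hcis : Measurable cis := measurable_cis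
  -- differentiability
  have hd1 : ∀ᵐ p : ℂ × ℝ, DifferentiableAt ℝ F₁ p.1 :=
    (Measure.quasiMeasurePreserving_fst (μ := (volume : Measure ℂ))
      (ν := (volume : Measure ℝ))).ae hF₁.ae_differentiableAt
  have hd2 : ∀ᵐ p : ℂ × ℝ, DifferentiableAt ℝ F₂ (p.1 + cis p.2) :=
    ((Measure.quasiMeasurePreserving_fst (μ := (volume : Measure ℂ))
      (ν := (volume : Measure ℝ))).comp
      (rigShear cis hcis 0).quasiMeasurePreserving).ae hF₂.ae_differentiableAt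
  -- the functions
  set a₁ : ℂ → ℂ := fun z => rigA (fderiv ℝ F₁ z) with ha₁
  set β₁ : ℂ → ℂ := fun z => rigB (fderiv ℝ F₁ z) with hβ₁
  set a₂ : ℂ → ℂ := fun z => rigA (fderiv ℝ F₂ z) with ha₂
  set β₂ : ℂ → ℂ := fun z => rigB (fderiv ℝ F₂ z) with hβ₂
  have ma₁ : Measurable a₁ := rigA_meas F₁
  have mβ₁ : Measurable β₁ := rigB_meas F₁
  have ma₂ : Measurable a₂ := rigA_meas F₂
  have mβ₂ : Measurable β₂ := rigB_meas F₂
  set m : ℂ := conj ρ * (conj ρ - 1) with hm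
  set G₁ : Set (ℂ × ℝ) := G₀ ∩ {p | (a₁ p.1 * m - β₁ p.1 * m * conj (cis p.2) ^ 2).re = t p}
    with hG₁
  have hG₁m : MeasurableSet G₁ := by
    refine hG₀.inter (measurableSet_eq_fun ?_ ht)
    have h1 : Measurable fun p : ℂ × ℝ => a₁ p.1 := ma₁.comp measurable_fst
    have h2 : Measurable fun p : ℂ × ℝ => β₁ p.1 := mβ₁.comp measurable_fst
    have h3 : Measurable fun p : ℂ × ℝ => cis p.2 := hcis.comp measurable_snd
    have h4 : Measurable fun p : ℂ × ℝ => conj (cis p.2) :=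
      Complex.continuous_conj.measurable.comp h3
    exact Complex.measurable_re.comp
      ((h1.mul_const m).sub ((h2.mul_const m).mul (h4.pow_const 2)))
  have hA1 := rigT_acc 1 G₀ hG₀
  have hAρ := rigT_acc ρ G₀ hG₀
  have hA0 := rigT_acc 0 G₁ hG₁m
  have hH1 := rigH_acc 1 G₀ hG₀
  have hHI := rigH_acc I G₀ hG₀
  have hG₁ae : ∀ᵐ p : ℂ × ℝ, p ∈ G₀ → p ∈ G₁ := by
    filter_upwards [hd1, hA1] with p d1 h1 hp
    exact ⟨hp, rigR1 ρ hi F₁ F₂ G₀ t e12 p hp d1 (h1 hp)⟩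
  have hcore : ∀ᵐ p : ℂ × ℝ, p ∈ G₀ →
      (((a₂ (p.1 + cis p.2) * conj ρ).re = (a₁ p.1 * (conj ρ - 1)).re / 2 -
        3 / (2 * ρ.im) * (β₁ p.1 * m * conj (cis p.2) ^ 2).im) ∧
      (β₂ (p.1 + cis p.2) * m = β₁ p.1 * m + cis p.2 ^ 2 *
        (((a₂ (p.1 + cis p.2) * conj ρ).re : ℂ) * (ρ - 1) -
          ((a₁ p.1 * (conj ρ - 1)).re : ℂ) * ρ)) ∧
      (t p = (a₁ p.1 * (conj ρ - 1)).re * ρ.re - (β₁ p.1 * m * conj (cis p.2) ^ 2).re)) := by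
    filter_upwards [hd1, hd2, hA1, hAρ, hA0, hH1, hHI, hG₁ae] with p d1 d2 g1 g2 g3 g4 g5 g6 hp
    have hp1 := g6 hp
    have R1 := hp1.2
    have R2 := rigR2 ρ hi F₁ K₃ G₀ t e13 p hp d1 (g2 hp)
    have R3 := rigR3 ρ hi F₁ F₂ G₁ t (fun q hq => e12 q hq.1) p hp1 d2 (a₁ p.1 * m)
      (β₁ p.1 * m) (fun r hr => by
        have h2 := hr.2
        simp only [mem_ofPred_eq] at h2
        rw [← h2]
        simp [rigT]) (g3 hp1)
    have R4 := rigR4 ρ hi F₁ F₂ K₃ G₀ t e12 e13 p hp d2 (g2 hp)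
    have R5 := rigR5 ρ hi F₁ F₂ G₀ t e12 1 p hp d1 d2 (g4 hp)
    have R5' := rigR5 ρ hi F₁ F₂ G₀ t e12 I p hp d1 d2 (g5 hp)
    have hfin := rigAlg ρ (a₁ p.1 * m) (β₁ p.1 * m) (a₂ (p.1 + cis p.2) * m)
      (β₂ (p.1 + cis p.2) * m) (cis p.2) (t p) hi (cis_mul_conj p.2) R1 R2 R3.1 R3.2 R4
      (by
        rw [rigAB, rigAB] at R5
        rw [← R5]
        congr 1
        simp only [ha₁, hβ₁, ha₂, hβ₂, map_one]
        ring)
      (by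
        rw [rigAB, rigAB] at R5'
        rw [← R5']
        congr 1
        simp only [ha₁, hβ₁, ha₂, hβ₂, Complex.conj_I]
        ring)
    have q1 : a₁ p.1 * m / conj ρ = a₁ p.1 * (conj ρ - 1) := by
      rw [hm]
      field_simp
    have q2 : a₂ (p.1 + cis p.2) * m / (conj ρ - 1) = a₂ (p.1 + cis p.2) * conj ρ := by
      rw [hm]
      field_simp
    rw [q1, q2] at hfin
    exact hfin
  -- conclusion
  set r₁ : ℂ → ℝ := fun z => (a₁ z * (conj ρ - 1)).re with hr₁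
  set r₂ : ℂ → ℝ := fun z => (a₂ z * conj ρ).re with hr₂
  set B₁ : ℂ → ℂ := fun z => β₁ z * m with hB₁
  set B₂ : ℂ → ℂ := fun z => β₂ z * m with hB₂
  have mr₁ : Measurable r₁ := Complex.measurable_re.comp (ma₁.mul_const _)
  have mr₂ : Measurable r₂ := Complex.measurable_re.comp (ma₂.mul_const _)
  have mB₁ : Measurable B₁ := mβ₁.mul_const _
  have mB₂ : Measurable B₂ := mβ₂.mul_const _
  obtain ⟨N, hN, hNm, hN0⟩ := exists_measurable_superset_of_null (ae_iff.1 hcore)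
  have hQ : ∀ p ∈ G₀ \ N,
      (((a₂ (p.1 + cis p.2) * conj ρ).re = (a₁ p.1 * (conj ρ - 1)).re / 2 -
        3 / (2 * ρ.im) * (β₁ p.1 * m * conj (cis p.2) ^ 2).im) ∧
      (β₂ (p.1 + cis p.2) * m = β₁ p.1 * m + cis p.2 ^ 2 *
        (((a₂ (p.1 + cis p.2) * conj ρ).re : ℂ) * (ρ - 1) -
          ((a₁ p.1 * (conj ρ - 1)).re : ℂ) * ρ)) ∧
      (t p = (a₁ p.1 * (conj ρ - 1)).re * ρ.re - (β₁ p.1 * m * conj (cis p.2) ^ 2).re)) := by
    intro p hp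
    by_contra hcon
    exact hp.2 (hN fun h => hcon (h hp.1))
  refine ⟨r₁, r₂, B₁, B₂, G₀ \ N, mr₁, mr₂, mB₁, mB₂, ?_, sdiff_subset.trans hG₀G,
    hG₀.diff hNm, ?_, fun p hp => (hQ p hp).1, fun p hp => (hQ p hp).2.1,
    fun p hp => (hQ p hp).2.2⟩
  · have n1 : ∀ z, ‖fderiv ℝ F₁ z‖ ≤ (C₁ : ℝ) + C₂ := fun z =>
      (norm_fderiv_le_of_lipschitz ℝ hF₁).trans (by simp)
    have n2 : ∀ z, ‖fderiv ℝ F₂ z‖ ≤ (C₁ : ℝ) + C₂ := fun z =>
      (norm_fderiv_le_of_lipschitz ℝ hF₂).trans (by simp)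
    set D : ℝ := (C₁ : ℝ) + C₂ with hD
    have hD0 : 0 ≤ D := by positivity
    refine ⟨D * (‖conj ρ - 1‖ + ‖conj ρ‖ + ‖m‖), fun z => ⟨?_, ?_, ?_, ?_⟩⟩
    · calc |r₁ z| ≤ ‖a₁ z * (conj ρ - 1)‖ := Complex.abs_re_le_norm _
        _ = ‖a₁ z‖ * ‖conj ρ - 1‖ := norm_mul _ _
        _ ≤ D * ‖conj ρ - 1‖ := mul_le_mul_of_nonneg_right (rigA_norm _ D (n1 z)) (norm_nonneg _)
        _ ≤ _ := mul_le_mul_of_nonneg_left
          (by have := norm_nonneg (conj ρ); have := norm_nonneg m; linarith) hD0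
    · calc |r₂ z| ≤ ‖a₂ z * conj ρ‖ := Complex.abs_re_le_norm _
        _ = ‖a₂ z‖ * ‖conj ρ‖ := norm_mul _ _
        _ ≤ D * ‖conj ρ‖ := mul_le_mul_of_nonneg_right (rigA_norm _ D (n2 z)) (norm_nonneg _)
        _ ≤ _ := mul_le_mul_of_nonneg_left
          (by have := norm_nonneg (conj ρ - 1); have := norm_nonneg m; linarith) hD0
    · calc ‖B₁ z‖ = ‖β₁ z‖ * ‖m‖ := norm_mul _ _
        _ ≤ D * ‖m‖ := mul_le_mul_of_nonneg_right (rigB_norm _ D (n1 z)) (norm_nonneg _)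
        _ ≤ _ := mul_le_mul_of_nonneg_left
          (by have := norm_nonneg (conj ρ - 1); have := norm_nonneg (conj ρ); linarith) hD0
    · calc ‖B₂ z‖ = ‖β₂ z‖ * ‖m‖ := norm_mul _ _
        _ ≤ D * ‖m‖ := mul_le_mul_of_nonneg_right (rigB_norm _ D (n2 z)) (norm_nonneg _)
        _ ≤ _ := mul_le_mul_of_nonneg_left
          (by have := norm_nonneg (conj ρ - 1); have := norm_nonneg (conj ρ); linarith) hD0
  · rw [measure_sdiff_null hN0]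
    exact hG₀pos

end Pool.Agent.H24.Tri
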